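import Pool.Agent.WIR.StmtsC

/-!
WIR, row HFB: bad words.
-/

set_option autoImplicit false

namespace Pool.Agent.WIR.H41

open Pool.Agent.WIR

theorem hfb (hhoe : HoeStmt) (hexp : ExpStmt) : HfbStmt := by
  intro N L hN hL
  have hNR : (1 : ℝ) ≤ N := by exact_mod_cast hN
  have hLR : 5 * (L : ℝ) ≤ 8 * N := by exact_mod_cast hL
  -- first part
  have part1 : (((Finset.Icc 1 L).powerset.filter (fun O => 19 * N < 20 * O.card)).card : ℝ)
      ≤ 2 ^ L * Real.exp (-((N : ℝ) / 40)) := by
    have hcount : ((Finset.Icc 1 L).powerset.filter (fun O => 19 * N < 20 * O.card)).card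
        = ∑ r ∈ (Finset.range (L + 1)).filter (fun r => 19 * N < 20 * r), L.choose r := by
      rw [Finset.card_filter]
      have h1 := Finset.sum_powerset_apply_card (fun r => if 19 * N < 20 * r then (1 : ℕ) else 0)
        (x := Finset.Icc 1 L)
      rw [h1, Nat.card_Icc, Nat.add_sub_cancel, Finset.sum_filter]
      refine Finset.sum_congr rfl fun r _ => ?_
      split_ifs <;> simp
    rw [hcount]
    push_cast
    rcases Nat.eq_zero_or_pos L with h0 | h0
    · subst h0
      have h2 : ((Finset.range (0 + 1)).filter (fun r => 19 * N < 20 * r)) = ∅ := by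
        rw [Finset.filter_eq_empty_iff]
        intro r hr
        have hr' : r < 0 + 1 := Finset.mem_range.mp hr
        omega
      rw [h2, Finset.sum_empty]
      positivity
    · have hL0 : (0 : ℝ) < L := by exact_mod_cast h0
      set u : ℝ := 19 / 10 * N - L with hu
      have hu0 : 3 / 10 * (N : ℝ) ≤ u := by rw [hu]; linarith
      have hu00 : 0 ≤ u := by linarith
      have h3 := (hhoe L u h0 hu00).1
      refine le_trans ?_ (h3.trans ?_)
      · apply Finset.sum_le_sum_of_subset_of_nonneg
        · intro r hr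
          rw [Finset.mem_filter] at hr ⊢
          refine ⟨hr.1, ?_⟩
          have h4 : (19 : ℝ) * N < 20 * r := by exact_mod_cast hr.2
          rw [hu]
          linarith
        · intro r _ _
          exact Nat.cast_nonneg _
      · refine mul_le_mul_of_nonneg_left ?_ (by positivity)
        rw [Real.exp_le_exp]
        apply neg_le_neg
        rw [le_div_iff₀ (by positivity)]
        have h5 : (3 / 10 * (N : ℝ)) ^ 2 ≤ u ^ 2 := pow_le_pow_left₀ (by positivity) hu0 2
        nlinarith
  -- second part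
  have part2 : (((Finset.Icc 1 L).powerset.filter (fun O => 3 ^ N ≤ nO L O)).card : ℝ)
      ≤ 2 ^ L * (L * 2 ^ L / 3 ^ N) := by
    have h1 : ((Finset.Icc 1 L).powerset.filter (fun O => 3 ^ N ≤ nO L O)).card * 3 ^ N
        ≤ ∑ O ∈ (Finset.Icc 1 L).powerset, nO L O := by
      calc ((Finset.Icc 1 L).powerset.filter (fun O => 3 ^ N ≤ nO L O)).card * 3 ^ N
          = ((Finset.Icc 1 L).powerset.filter (fun O => 3 ^ N ≤ nO L O)).card • 3 ^ N := by
            rw [smul_eq_mul]
        _ ≤ ∑ O ∈ (Finset.Icc 1 L).powerset.filter (fun O => 3 ^ N ≤ nO L O), nO L O :=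
            Finset.card_nsmul_le_sum _ _ _ (fun O hO => (Finset.mem_filter.mp hO).2)
        _ ≤ _ := Finset.sum_le_sum_of_subset (Finset.filter_subset _ _)
    have h2 := hexp L
    have h3 : (((Finset.Icc 1 L).powerset.filter (fun O => 3 ^ N ≤ nO L O)).card : ℝ) * 3 ^ N
        ≤ L * 4 ^ L := by
      have h4 : ((Finset.Icc 1 L).powerset.filter (fun O => 3 ^ N ≤ nO L O)).card * 3 ^ N
          ≤ L * 4 ^ L := by omega
      exact_mod_cast h4
    have h5 : (0 : ℝ) < 3 ^ N := by positivity
    have h6 : (2 : ℝ) ^ L * (L * 2 ^ L / 3 ^ N) = L * 4 ^ L / 3 ^ N := by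
      have : (4 : ℝ) ^ L = 2 ^ L * 2 ^ L := by rw [← mul_pow]; norm_num
      rw [this]; ring
    rw [h6, le_div_iff₀ h5]
    exact h3
  have hsub : (Finset.Icc 1 L).powerset.filter (fun O => 19 * N < 20 * O.card ∨ 3 ^ N ≤ nO L O)
      ⊆ (Finset.Icc 1 L).powerset.filter (fun O => 19 * N < 20 * O.card)
        ∪ (Finset.Icc 1 L).powerset.filter (fun O => 3 ^ N ≤ nO L O) := by
    intro O hO
    rw [Finset.mem_filter] at hO
    rw [Finset.mem_union, Finset.mem_filter, Finset.mem_filter]
    rcases hO.2 with h | h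
    · exact Or.inl ⟨hO.1, h⟩
    · exact Or.inr ⟨hO.1, h⟩
  have hcard := (Finset.card_le_card hsub).trans (Finset.card_union_le _ _)
  have hcard' : (((Finset.Icc 1 L).powerset.filter
      (fun O => 19 * N < 20 * O.card ∨ 3 ^ N ≤ nO L O)).card : ℝ)
      ≤ (((Finset.Icc 1 L).powerset.filter (fun O => 19 * N < 20 * O.card)).card : ℝ)
        + (((Finset.Icc 1 L).powerset.filter (fun O => 3 ^ N ≤ nO L O)).card : ℝ) := by
    exact_mod_cast hcard
  rw [mul_add]
  linarith

end Pool.Agent.WIR.H41
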